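import Pool.Agent.Helper48.HE.Goals

/-!
MP_beb0a8_an, packet EX: an explicit compactly supported element of the phase space which does
not vanish on the wall: `w = (-∂₀∂₂G, -∂₁∂₂G, (∂₀²+∂₁²)G)` with `G = x₂ ψ`, `ψ` a bump function.
-/

set_option autoImplicit false

open MeasureTheory Set Filter Topology
open scoped ContDiff

namespace Pool.Agent.Helper88.HalfEuler

open Pool.Agent.Helper48.HalfEuler

/-- partial derivative on the whole space -/
noncomputable def P (j : Fin 3) (f : E → ℝ) (x : E) : ℝ := fderiv ℝ f x (Pi.single j 1)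

theorem P_smooth (j : Fin 3) {f : E → ℝ} (hf : ContDiff ℝ ∞ f) : ContDiff ℝ ∞ (P j f) :=
  (hf.fderiv_right (m := ∞) (by simp)).clm_apply contDiff_const

theorem P_compact (j : Fin 3) {f : E → ℝ} (hf : HasCompactSupport f) :
    HasCompactSupport (P j f) := hf.fderiv_apply (𝕜 := ℝ) _

theorem P_comm (i j : Fin 3) {f : E → ℝ} (hf : ContDiff ℝ ∞ f) : P i (P j f) = P j (P i f) := by
  funext x
  have hs : IsSymmSndFDerivAt ℝ f x := hf.contDiffAt.isSymmSndFDerivAt (by
    simp only [minSmoothness_of_isRCLikeNormedField]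
    exact WithTop.coe_le_coe.2 (le_top : (2 : ℕ∞) ≤ ⊤))
  have hd : DifferentiableAt ℝ (fderiv ℝ f) x :=
    ((hf.fderiv_right (m := ∞) (by simp)).differentiable (by simp)) x
  have e1 : ∀ u : E, fderiv ℝ (fun y => fderiv ℝ f y u) x =
      (ContinuousLinearMap.apply ℝ ℝ u).comp (fderiv ℝ (fderiv ℝ f) x) := by
    intro u
    exact ((ContinuousLinearMap.apply ℝ ℝ u).hasFDerivAt.comp x hd.hasFDerivAt).fderiv
  show fderiv ℝ (fun y => fderiv ℝ f y (Pi.single j 1)) x (Pi.single i 1) =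
    fderiv ℝ (fun y => fderiv ℝ f y (Pi.single i 1)) x (Pi.single j 1)
  rw [e1, e1]
  simp only [ContinuousLinearMap.comp_apply, ContinuousLinearMap.apply_apply]
  exact hs _ _

theorem P_neg (j : Fin 3) (f : E → ℝ) : P j (fun x => -f x) = fun x => -P j f x := by
  funext x
  unfold P
  rw [fderiv_fun_neg]
  rfl

theorem P_add (j : Fin 3) {f g : E → ℝ} (hf : ContDiff ℝ ∞ f) (hg : ContDiff ℝ ∞ g) :
    P j (fun x => f x + g x) = fun x => P j f x + P j g x := by
  funext x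
  unfold P
  rw [fderiv_fun_add (hf.differentiable (by simp) x) (hg.differentiable (by simp) x)]
  rfl

/-- derivative of `x₂ f` -/
theorem P_mul (j : Fin 3) {f : E → ℝ} (hf : ContDiff ℝ ∞ f) (x : E) :
    P j (fun x => x 2 * f x) x = x 2 * P j f x + f x * (Pi.single j 1 : E) 2 := by
  have h1 : HasFDerivAt (fun x : E => x 2) (ContinuousLinearMap.proj (R := ℝ) 2) x :=
    (ContinuousLinearMap.proj (R := ℝ) (φ := fun _ : Fin 3 => ℝ) 2).hasFDerivAt
  have h2 : HasFDerivAt f (fderiv ℝ f x) x := (hf.differentiable (by simp) x).hasFDerivAt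
  have h3 : HasFDerivAt (fun x : E => x 2 * f x)
      (x 2 • fderiv ℝ f x + f x • ContinuousLinearMap.proj (R := ℝ) 2) x := h1.mul h2
  unfold P
  rw [h3.fderiv]
  simp

theorem uniq : UniqueDiffOn ℝ Mbar := by
  refine uniqueDiffOn_convex ?_ ?_
  · exact convex_halfSpace_ge (f := fun x : E => x 2) ⟨fun _ _ => rfl, fun _ _ => rfl⟩ 0
  · refine ⟨fun _ => 1, ?_⟩
    rw [mem_interior]
    refine ⟨{x : E | 0 < x 2}, fun x (hx : 0 < x 2) => (le_of_lt hx : 0 ≤ x 2), ?_, ?_⟩
    · exact isOpen_lt continuous_const (continuous_apply 2)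
    · show (0 : ℝ) < 1
      norm_num

theorem pd_eq (j : Fin 3) {f : E → ℝ} (hf : ContDiff ℝ ∞ f) {x : E} (hx : x ∈ Mbar) :
    pd j f x = P j f x := by
  unfold pd P
  rw [fderivWithin_eq_fderiv (uniq x hx) (hf.differentiable (by simp) x)]

theorem weight_pos (β : ℝ) (x : E) : 0 < (1 + ‖x‖) ^ β :=
  Real.rpow_pos_of_pos (by linarith [norm_nonneg x]) _

theorem bdA (β : ℝ) {g : E → ℝ} (hg : Continuous g) (hc : HasCompactSupport g) :
    ∃ C : ℝ, ∀ x, |g x| ≤ C * (1 + ‖x‖) ^ (-β) := by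
  have h1 : Continuous (fun x : E => (1 + ‖x‖) ^ β * g x) := by
    refine Continuous.mul ?_ hg
    refine Continuous.rpow_const (by fun_prop) fun x => Or.inl ?_
    have := norm_nonneg x
    positivity
  have h2 : HasCompactSupport (fun x : E => (1 + ‖x‖) ^ β * g x) := hc.mul_left
  obtain ⟨C, hC⟩ := h1.bounded_above_of_compact_support h2
  refine ⟨C, fun x => ?_⟩
  have h3 := hC x
  rw [Real.norm_eq_abs, abs_mul, abs_of_pos (weight_pos β x)] at h3
  rw [Real.rpow_neg (by linarith [norm_nonneg x]), ← div_eq_mul_inv, le_div_iff₀ (weight_pos β x),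
    mul_comm]
  exact h3

theorem bdB (α β : ℝ) (hα : 0 < α) (hα1 : α < 1) (hβ : 0 < β) {g : E → ℝ} (hg : ContDiff ℝ ∞ g)
    (hc : HasCompactSupport g) :
    ∃ C : ℝ, ∀ x y, ‖x - y‖ ≤ 1 → |g x - g y| ≤ C * (1 + ‖x‖) ^ (-β) * ‖x - y‖ ^ α := by
  obtain ⟨K, hK⟩ := hg.lipschitzWith_of_hasCompactSupport hc (by simp)
  obtain ⟨R, hR⟩ := hc.isCompact.isBounded.exists_norm_le
  have hR0 : ∀ x : E, max R 0 < ‖x‖ → g x = 0 := by
    intro x hx
    by_contra h
    have := hR x (subset_tsupport g h)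
    have := le_max_left R 0
    linarith
  refine ⟨K * (2 + max R 0) ^ β, fun x y hxy => ?_⟩
  have hm : 0 ≤ max R 0 := le_max_right _ _
  have hw : 0 < (1 + ‖x‖) ^ (-β) := weight_pos (-β) x
  by_cases hx : ‖x‖ ≤ max R 0 + 1
  · have h1 : |g x - g y| ≤ K * ‖x - y‖ := by
      have := hK.dist_le_mul x y
      rwa [Real.dist_eq, dist_eq_norm] at this
    have h2 : ‖x - y‖ ≤ ‖x - y‖ ^ α := by
      have h3 := Real.rpow_le_rpow_of_exponent_ge' (norm_nonneg (x - y)) hxy hα.le hα1.le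
      rwa [Real.rpow_one] at h3
    have h3 : 1 ≤ (2 + max R 0) ^ β * (1 + ‖x‖) ^ (-β) := by
      rw [Real.rpow_neg (by linarith [norm_nonneg x]), ← div_eq_mul_inv,
        one_le_div (weight_pos β x)]
      exact Real.rpow_le_rpow (by linarith [norm_nonneg x]) (by linarith) hβ.le
    calc |g x - g y| ≤ K * ‖x - y‖ := h1
      _ ≤ K * ‖x - y‖ ^ α := mul_le_mul_of_nonneg_left h2 K.2
      _ = (K * ‖x - y‖ ^ α) * 1 := (mul_one _).symm
      _ ≤ (K * ‖x - y‖ ^ α) * ((2 + max R 0) ^ β * (1 + ‖x‖) ^ (-β)) :=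
          mul_le_mul_of_nonneg_left h3 (mul_nonneg K.2 (Real.rpow_nonneg (norm_nonneg _) _))
      _ = _ := by ring
  · push Not at hx
    have h1 : g x = 0 := hR0 x (by linarith)
    have h2 : g y = 0 := by
      refine hR0 y ?_
      have h3 := norm_sub_norm_le x y
      linarith
    rw [h1, h2, sub_zero, abs_zero]
    have h4 : (0 : ℝ) ≤ (2 + max R 0) ^ β := Real.rpow_nonneg (by linarith) _
    have h5 : (0 : ℝ) ≤ ‖x - y‖ ^ α := Real.rpow_nonneg (norm_nonneg _) _
    exact mul_nonneg (mul_nonneg (mul_nonneg K.2 h4) hw.le) h5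

/-- smooth compactly supported fields satisfy the weighted bounds -/
theorem close_of_compact (α β : ℝ) (hα : 0 < α) (hα1 : α < 1) (hβ : 0 < β) (w : E → E)
    (hs : ∀ i, ContDiff ℝ ∞ (fun x => w x i)) (hc : ∀ i, HasCompactSupport (fun x => w x i)) :
    ∃ C : ℝ, Close α β C w 0 := by
  choose A hA using fun i => bdA β (hs i).continuous (hc i)
  choose A1 hA1 using fun (i j : Fin 3) => bdA β (P_smooth j (hs i)).continuous
    (P_compact j (hc i))
  choose B hB using fun (i j : Fin 3) => bdB α β hα hα1 hβ (P_smooth j (hs i))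
    (P_compact j (hc i))
  set C : ℝ := ∑ i, |A i| + ∑ i, ∑ j, |A1 i j| + ∑ i, ∑ j, |B i j| with hC
  have n1 : (0 : ℝ) ≤ ∑ i, |A i| := Finset.sum_nonneg fun i _ => abs_nonneg _
  have n2 : (0 : ℝ) ≤ ∑ i, ∑ j, |A1 i j| :=
    Finset.sum_nonneg fun i _ => Finset.sum_nonneg fun j _ => abs_nonneg _
  have n3 : (0 : ℝ) ≤ ∑ i, ∑ j, |B i j| :=
    Finset.sum_nonneg fun i _ => Finset.sum_nonneg fun j _ => abs_nonneg _
  have c1 : ∀ i, A i ≤ C := by
    intro i
    have h1 : |A i| ≤ ∑ i, |A i| :=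
      Finset.single_le_sum (f := fun i => |A i|) (fun i _ => abs_nonneg _) (Finset.mem_univ i)
    have h2 := le_abs_self (A i)
    linarith
  have c2 : ∀ i j, A1 i j ≤ C := by
    intro i j
    have h1 : |A1 i j| ≤ ∑ j, |A1 i j| :=
      Finset.single_le_sum (f := fun j => |A1 i j|) (fun i _ => abs_nonneg _) (Finset.mem_univ j)
    have h2 : ∑ j, |A1 i j| ≤ ∑ i, ∑ j, |A1 i j| :=
      Finset.single_le_sum (f := fun i => ∑ j, |A1 i j|)
        (fun i _ => Finset.sum_nonneg fun j _ => abs_nonneg _) (Finset.mem_univ i)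
    have h3 := le_abs_self (A1 i j)
    linarith
  have c3 : ∀ i j, B i j ≤ C := by
    intro i j
    have h1 : |B i j| ≤ ∑ j, |B i j| :=
      Finset.single_le_sum (f := fun j => |B i j|) (fun i _ => abs_nonneg _) (Finset.mem_univ j)
    have h2 : ∑ j, |B i j| ≤ ∑ i, ∑ j, |B i j| :=
      Finset.single_le_sum (f := fun i => ∑ j, |B i j|)
        (fun i _ => Finset.sum_nonneg fun j _ => abs_nonneg _) (Finset.mem_univ i)
    have h3 := le_abs_self (B i j)
    linarith
  have hz : ∀ (i j : Fin 3) (x : E), pd j (fun z => (0 : E → E) z i) x = 0 := by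
    intro i j x
    unfold pd
    have : (fun z => (0 : E → E) z i) = fun _ => (0 : ℝ) := rfl
    rw [this, fderivWithin_const_apply]
    rfl
  refine ⟨C, fun i x hx => ⟨?_, fun j => ⟨?_, fun y hy hxy => ?_⟩⟩⟩
  · have h1 := hA i x
    have h2 : A i * (1 + ‖x‖) ^ (-β) ≤ C * (1 + ‖x‖) ^ (-β) :=
      mul_le_mul_of_nonneg_right (c1 i) (weight_pos _ x).le
    have h3 : w x i - (0 : E → E) x i = w x i := by simp
    rw [h3]
    exact h1.trans h2
  · have h1 := hA1 i j x
    have h2 : A1 i j * (1 + ‖x‖) ^ (-β) ≤ C * (1 + ‖x‖) ^ (-β) :=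
      mul_le_mul_of_nonneg_right (c2 i j) (weight_pos _ x).le
    rw [hz, sub_zero, pd_eq j (hs i) hx]
    exact h1.trans h2
  · have h1 := hB i j x y hxy
    have h2 : B i j * (1 + ‖x‖) ^ (-β) * ‖x - y‖ ^ α ≤ C * (1 + ‖x‖) ^ (-β) * ‖x - y‖ ^ α :=
      mul_le_mul_of_nonneg_right
        (mul_le_mul_of_nonneg_right (c3 i j) (weight_pos _ x).le)
        (Real.rpow_nonneg (norm_nonneg _) _)
    rw [hz, hz, sub_zero, sub_zero, pd_eq j (hs i) hx, pd_eq j (hs i) hy]
    exact h1.trans h2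

theorem pf_Ex : Pool.Agent.Helper48.HalfEuler.StmtEx := by
  intro α β hα hα1 hβ
  -- the bump function
  let b : ContDiffBump (0 : E) := ⟨1, 2, by norm_num, by norm_num⟩
  set ψ : E → ℝ := fun x => b x with hψ
  have hψs : ContDiff ℝ ∞ ψ := b.contDiff
  have hψc : HasCompactSupport ψ := b.hasCompactSupport
  set G : E → ℝ := fun x => x 2 * ψ x with hG
  have hGs : ContDiff ℝ ∞ G := (contDiff_apply ℝ ℝ (2 : Fin 3)).mul hψs
  have hGc : HasCompactSupport G := hψc.mul_left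
  set w : E → E := fun x => ![-P 0 (P 2 G) x, -P 1 (P 2 G) x, P 0 (P 0 G) x + P 1 (P 1 G) x]
    with hw
  have w0 : (fun x => w x 0) = fun x => -P 0 (P 2 G) x := rfl
  have w1 : (fun x => w x 1) = fun x => -P 1 (P 2 G) x := rfl
  have w2 : (fun x => w x 2) = fun x => P 0 (P 0 G) x + P 1 (P 1 G) x := rfl
  have s2 : ∀ i j, ContDiff ℝ ∞ (P i (P j G)) := fun i j => P_smooth i (P_smooth j hGs)
  have k2 : ∀ i j, HasCompactSupport (P i (P j G)) := fun i j => P_compact i (P_compact j hGc)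
  have hs : ∀ i, ContDiff ℝ ∞ (fun x => w x i) := by
    intro i
    fin_cases i
    · exact (s2 0 2).neg
    · exact (s2 1 2).neg
    · exact (s2 0 0).add (s2 1 1)
  have hc : ∀ i, HasCompactSupport (fun x => w x i) := by
    intro i
    fin_cases i
    · exact (k2 0 2).neg
    · exact (k2 1 2).neg
    · exact (k2 0 0).add (k2 1 1)
  have hP0 : P 0 G = fun x => x 2 * P 0 ψ x := by
    funext x
    rw [hG, P_mul 0 hψs x]
    simp
  have hP1 : P 1 G = fun x => x 2 * P 1 ψ x := by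
    funext x
    rw [hG, P_mul 1 hψs x]
    simp
  refine ⟨w, ⟨?_, ?_, ?_, ?_, ?_⟩, ?_⟩
  · intro i
    exact ((hs i).of_le (by simp)).contDiffOn
  · exact close_of_compact α β hα hα1 (by linarith) w hs hc
  · intro x hx
    rw [Fin.sum_univ_three, pd_eq 0 (hs 0) hx, pd_eq 1 (hs 1) hx, pd_eq 2 (hs 2) hx, w0, w1, w2,
      P_neg, P_neg, P_add 2 (s2 0 0) (s2 1 1)]
    simp only
    rw [P_comm 2 0 (P_smooth 0 hGs), P_comm 2 0 hGs, P_comm 2 1 (P_smooth 1 hGs), P_comm 2 1 hGs]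
    ring
  · intro x hx h2
    show P 0 (P 0 G) x + P 1 (P 1 G) x = 0
    rw [hP0, hP1, P_mul 0 (P_smooth 0 hψs) x, P_mul 1 (P_smooth 1 hψs) x, h2]
    simp
  · intro x hx h2
    rw [pd_eq 0 (hs 1) hx, pd_eq 1 (hs 0) hx, w0, w1, P_neg, P_neg]
    simp only
    rw [P_comm 0 1 (P_smooth 2 hGs)]
  · by_contra hcon
    push Not at hcon
    -- then `∂₀ψ = 0` on the wall
    have hz : ∀ x : E, x 2 = 0 → P 0 ψ x = 0 := by
      intro x hx
      have h1 := hcon x hx
      have h2 : w x 0 = -P 0 (P 2 G) x := rfl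
      rw [h2, P_comm 0 2 hGs, hP0, P_mul 2 (P_smooth 0 hψs) x, hx] at h1
      simpa using h1
    -- so `ψ` is constant along the line
    have hd : ∀ t : ℝ, HasDerivAt (fun s : ℝ => ψ (Pi.single 0 s)) 0 t := by
      intro t
      have e1 : HasFDerivAt ψ (fderiv ℝ ψ (Pi.single 0 t)) (Pi.single 0 t) :=
        (hψs.differentiable (by simp) _).hasFDerivAt
      have e2 : HasDerivAt (fun s : ℝ => (Pi.single 0 s : E)) (Pi.single 0 1 : E) t := by
        have e3 : (fun s : ℝ => (Pi.single 0 s : E)) = fun s => s • (Pi.single 0 1 : E) := by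
          funext s
          rw [← Pi.single_smul, smul_eq_mul, mul_one]
        rw [e3]
        simpa using (hasDerivAt_id t).smul_const (Pi.single 0 1 : E)
      have e4 := e1.comp_hasDerivAt t e2
      have e5 : fderiv ℝ ψ (Pi.single 0 t) (Pi.single 0 1) = 0 := hz _ (by simp)
      rw [e5] at e4
      exact e4
    have hconst := is_const_of_deriv_eq_zero (f := fun s : ℝ => ψ (Pi.single 0 s))
      (fun t => (hd t).differentiableAt) (fun t => (hd t).deriv) 0 3
    have a1 : ψ (Pi.single 0 (0 : ℝ)) = 1 := by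
      show b _ = 1
      rw [Pi.single_zero]
      exact b.one_of_mem_closedBall (Metric.mem_closedBall_self b.rIn_pos.le)
    have a2 : ψ (Pi.single 0 (3 : ℝ)) = 0 := by
      show b _ = 0
      refine b.zero_of_le_dist ?_
      rw [dist_zero_right, Pi.norm_single]
      show (2 : ℝ) ≤ ‖(3 : ℝ)‖
      norm_num
    rw [a1, a2] at hconst
    norm_num at hconst

end Pool.Agent.Helper88.HalfEuler
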