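import Pool.Agent.Helper48.HE.Goals

/-!
MP_beb0a8_an, packet LIOU: a decaying curl-free planar field which does not vanish identically
has a non-vanishing Poisson average of its divergence.
-/

set_option autoImplicit false

open MeasureTheory Set Filter Topology

namespace Pool.Agent.Helper88.HalfEuler

open Pool.Agent.Helper48.HalfEuler

theorem rpow_neg_le_one {β : ℝ} (hβ : 0 < β) (q : ℝ × ℝ) : (1 + ‖q‖) ^ (-β) ≤ 1 :=
  Real.rpow_le_one_of_one_le_of_nonpos (by linarith [norm_nonneg q]) (by linarith)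

theorem rpow_neg_pos (β : ℝ) (q : ℝ × ℝ) : 0 < (1 + ‖q‖) ^ (-β) :=
  Real.rpow_pos_of_pos (by linarith [norm_nonneg q]) _

/-- step 1 -/
theorem div_ne_zero_of {V0 V1 : ℝ × ℝ → ℝ} {β C : ℝ} (hβ : 3 < β) (h0 : ContDiff ℝ 1 V0)
    (h1 : ContDiff ℝ 1 V1) (hb0 : ∀ q, |V0 q| ≤ C * (1 + ‖q‖) ^ (-β))
    (hb1 : ∀ q, |V1 q| ≤ C * (1 + ‖q‖) ^ (-β))
    (hcurl : ∀ q, fderiv ℝ V1 q (1, 0) = fderiv ℝ V0 q (0, 1))
    (hne : ∃ q, V0 q ≠ 0 ∨ V1 q ≠ 0) :
    ∃ q, fderiv ℝ V0 q (1, 0) + fderiv ℝ V1 q (0, 1) ≠ 0 := by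
  by_contra hcon
  push Not at hcon
  have hC : 0 ≤ C := by
    have h := (abs_nonneg _).trans (hb0 (0, 0))
    by_contra hC
    push Not at hC
    have := mul_neg_of_neg_of_pos hC (rpow_neg_pos β (0, 0))
    linarith
  set F : ℂ → ℂ := fun z => (V0 (z.re, z.im) : ℂ) - Complex.I * (V1 (z.re, z.im) : ℂ) with hF
  have hlin : ∀ (L : ℝ × ℝ →L[ℝ] ℝ) (a b : ℝ), L (a, b) = a * L (1, 0) + b * L (0, 1) := by
    intro L a b
    have : ((a, b) : ℝ × ℝ) = a • (1, 0) + b • (0, 1) := by simp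
    rw [this, map_add, map_smul, map_smul]
    simp
  have hdiff : Differentiable ℂ F := by
    intro z
    have hpr : HasFDerivAt (fun z : ℂ => ((z.re, z.im) : ℝ × ℝ))
        ((Complex.reCLM).prod Complex.imCLM) z :=
      (Complex.reCLM.hasFDerivAt).prodMk (Complex.imCLM.hasFDerivAt)
    have e0 : HasFDerivAt V0 (fderiv ℝ V0 (z.re, z.im)) (z.re, z.im) :=
      ((h0.differentiable (by simp)) _).hasFDerivAt
    have e1 : HasFDerivAt V1 (fderiv ℝ V1 (z.re, z.im)) (z.re, z.im) :=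
      ((h1.differentiable (by simp)) _).hasFDerivAt
    have c0 := e0.comp z hpr
    have c1 := e1.comp z hpr
    have d0 := (Complex.ofRealCLM.hasFDerivAt (x := V0 (z.re, z.im))).comp z c0
    have d1 := (Complex.ofRealCLM.hasFDerivAt (x := V1 (z.re, z.im))).comp z c1
    have d2 := d0.sub (d1.const_mul Complex.I)
    have hrs : HasFDerivAt F (((fderiv ℝ V0 (z.re, z.im) (1, 0) : ℂ) -
        Complex.I * (fderiv ℝ V0 (z.re, z.im) (0, 1) : ℂ)) • (1 : ℂ →L[ℂ] ℂ)) z := by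
      refine hasFDerivAt_of_restrictScalars ℝ d2 ?_
      ext w
      simp only [ContinuousLinearMap.coe_restrictScalars', ContinuousLinearMap.smul_apply,
        ContinuousLinearMap.one_apply, smul_eq_mul, ContinuousLinearMap.sub_apply,
        ContinuousLinearMap.comp_apply, ContinuousLinearMap.prod_apply, Complex.reCLM_apply,
        Complex.imCLM_apply, Complex.ofRealCLM_apply]
      have k1 := hcurl (z.re, z.im)
      have k2 := hcon (z.re, z.im)
      have k3 : fderiv ℝ V1 (z.re, z.im) (0, 1) = -fderiv ℝ V0 (z.re, z.im) (1, 0) := by linarith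
      rw [hlin _ w.re w.im, hlin (fderiv ℝ V1 (z.re, z.im)) w.re w.im, k1, k3]
      have k4 : w = (w.re : ℂ) + (w.im : ℂ) * Complex.I := (Complex.re_add_im w).symm
      generalize fderiv ℝ V0 (z.re, z.im) (1, 0) = a
      generalize fderiv ℝ V0 (z.re, z.im) (0, 1) = b
      conv_lhs => rw [k4]
      push_cast
      linear_combination (-(b : ℂ) * (w.im : ℂ)) * Complex.I_sq
    exact hrs.differentiableAt
  have hbd : ∀ z : ℂ, ‖F z‖ ≤ 2 * C * (1 + ‖((z.re, z.im) : ℝ × ℝ)‖) ^ (-β) := by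
    intro z
    have h2 := norm_sub_le (V0 (z.re, z.im) : ℂ) (Complex.I * (V1 (z.re, z.im) : ℂ))
    rw [norm_mul, Complex.norm_I, one_mul, Complex.norm_real, Complex.norm_real,
      Real.norm_eq_abs, Real.norm_eq_abs] at h2
    have := hb0 (z.re, z.im)
    have := hb1 (z.re, z.im)
    have h3 : ‖F z‖ ≤ |V0 (z.re, z.im)| + |V1 (z.re, z.im)| := h2
    linarith
  have hconst : ∀ z w : ℂ, F z = F w := by
    refine hdiff.apply_eq_apply_of_bounded ?_
    rw [isBounded_iff_forall_norm_le]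
    refine ⟨2 * C, ?_⟩
    rintro _ ⟨z, rfl⟩
    refine (hbd z).trans ?_
    have := rpow_neg_le_one (by linarith : 0 < β) (z.re, z.im)
    calc 2 * C * (1 + ‖((z.re, z.im) : ℝ × ℝ)‖) ^ (-β) ≤ 2 * C * 1 :=
          mul_le_mul_of_nonneg_left this (by positivity)
      _ = 2 * C := mul_one _
  have hzero : ∀ z : ℂ, F z = 0 := by
    intro z
    have ht : Tendsto (fun n : ℕ => 2 * C * (1 + (n : ℝ)) ^ (-β)) atTop (𝓝 0) := by
      have h3 : Tendsto (fun n : ℕ => (1 + (n : ℝ)) ^ (-β)) atTop (𝓝 0) := by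
        refine (tendsto_rpow_neg_atTop (by linarith : 0 < β)).comp ?_
        exact tendsto_atTop_add_const_left _ _ tendsto_natCast_atTop_atTop
      simpa using h3.const_mul (2 * C)
    have h4 : ‖F z‖ ≤ 0 := by
      refine ge_of_tendsto ht (Eventually.of_forall fun n => ?_)
      rw [hconst z (n : ℂ)]
      refine (hbd n).trans ?_
      refine le_of_eq ?_
      congr 3
      simp [Prod.norm_def]
    exact norm_le_zero_iff.1 h4
  obtain ⟨q, hq⟩ := hne
  have hz := hzero ⟨q.1, q.2⟩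
  rw [hF] at hz
  simp only at hz
  have hre := congrArg Complex.re hz
  have him := congrArg Complex.im hz
  simp at hre him
  rcases hq with h | h
  · exact h hre
  · exact h him

/-- the kernel -/
noncomputable def ker (w : ℝ × ℝ) : ℝ := ((Real.sqrt (w.1 ^ 2 + w.2 ^ 2 + 1))⁻¹) ^ 3

theorem ker_pos (w : ℝ × ℝ) : 0 < ker w := by
  unfold ker
  have : 0 < Real.sqrt (w.1 ^ 2 + w.2 ^ 2 + 1) := Real.sqrt_pos.2 (by positivity)
  positivity

theorem ker_cont : Continuous ker := by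
  unfold ker
  refine Continuous.pow (Continuous.inv₀ (by fun_prop) fun w => ?_) 3
  exact (Real.sqrt_pos.2 (by positivity)).ne'

theorem ker_int : Integrable ker := by
  have h1 : Integrable (fun x : ℝ × ℝ => ((1 : ℝ) + ‖x‖ ^ 2) ^ (-(3 : ℝ) / 2)) := by
    apply integrable_rpow_neg_one_add_norm_sq
    simp
    norm_num
  refine h1.mono' ker_cont.aestronglyMeasurable (Eventually.of_forall fun w => ?_)
  rw [Real.norm_eq_abs, abs_of_pos (ker_pos w)]
  have h2 : ‖w‖ ^ 2 ≤ w.1 ^ 2 + w.2 ^ 2 := by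
    rw [Prod.norm_def]
    rcases le_total ‖w.1‖ ‖w.2‖ with h | h
    · rw [max_eq_right h, Real.norm_eq_abs, sq_abs]
      nlinarith [sq_nonneg w.1]
    · rw [max_eq_left h, Real.norm_eq_abs, sq_abs]
      nlinarith [sq_nonneg w.2]
  have h3 : 0 < 1 + ‖w‖ ^ 2 := by positivity
  have h4 : ((Real.sqrt (1 + ‖w‖ ^ 2))⁻¹) ^ 3 = (1 + ‖w‖ ^ 2) ^ (-(3 : ℝ) / 2) := by
    rw [Real.sqrt_eq_rpow, ← Real.rpow_neg h3.le, ← Real.rpow_natCast, ← Real.rpow_mul h3.le]
    norm_num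
  rw [← h4]
  unfold ker
  have h5 : 0 < Real.sqrt (1 + ‖w‖ ^ 2) := Real.sqrt_pos.2 h3
  have h6 : Real.sqrt (1 + ‖w‖ ^ 2) ≤ Real.sqrt (w.1 ^ 2 + w.2 ^ 2 + 1) :=
    Real.sqrt_le_sqrt (by linarith)
  exact pow_le_pow_left₀ (inv_nonneg.2 (Real.sqrt_nonneg _)) (inv_anti₀ h5 h6) 3

theorem ker_integral_pos : 0 < ∫ w, ker w := by
  rw [integral_pos_iff_support_of_nonneg (fun w => (ker_pos w).le) ker_int]
  have : Function.support ker = univ := by
    ext w
    simp [(ker_pos w).ne']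
  rw [this]
  simp

theorem subst_eq (d : ℝ × ℝ → ℝ) (y : ℝ × ℝ) (c : ℝ) (hc : 0 < c) :
    ∫ q : ℝ × ℝ, d q * (c * ((Real.sqrt ((q.1 - y.1) ^ 2 + (q.2 - y.2) ^ 2 + c ^ 2))⁻¹) ^ 3) =
      ∫ w : ℝ × ℝ, d (c • w + y) * ker w := by
  set G : ℝ × ℝ → ℝ := fun q =>
    d q * (c * ((Real.sqrt ((q.1 - y.1) ^ 2 + (q.2 - y.2) ^ 2 + c ^ 2))⁻¹) ^ 3) with hG
  have h1 : ∫ q, G q = ∫ q, G (q + y) := (integral_add_right_eq_self G y).symm
  have h2 := Measure.integral_comp_smul (volume : Measure (ℝ × ℝ)) (fun q => G (q + y)) c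
  have h3 : Module.finrank ℝ (ℝ × ℝ) = 2 := by simp
  rw [h3] at h2
  have hc2 : (0 : ℝ) < c ^ 2 := by positivity
  rw [abs_of_pos (inv_pos.2 hc2), smul_eq_mul] at h2
  have h4 : ∫ q, G (q + y) = c ^ 2 * ∫ w, G (c • w + y) := by
    rw [h2, ← mul_assoc, mul_inv_cancel₀ hc2.ne', one_mul]
  rw [h1, h4, ← integral_const_mul]
  congr 1
  funext w
  rw [hG]
  simp only
  have h5 : (c • w + y).1 - y.1 = c * w.1 := by simp
  have h6 : (c • w + y).2 - y.2 = c * w.2 := by simp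
  rw [h5, h6]
  have h7 : (c * w.1) ^ 2 + (c * w.2) ^ 2 + c ^ 2 = c ^ 2 * (w.1 ^ 2 + w.2 ^ 2 + 1) := by ring
  rw [h7, Real.sqrt_mul (by positivity), Real.sqrt_sq hc.le, mul_inv, mul_pow]
  unfold ker
  field_simp

theorem pf_Test : Pool.Agent.Helper48.HalfEuler.StmtTest := by
  intro V0 V1 β C hβ h0 h1 hb0 hb1 hbd hcurl hne
  obtain ⟨y, hy⟩ := div_ne_zero_of hβ h0 h1 hb0 hb1 hcurl hne
  set d : ℝ × ℝ → ℝ := fun q => fderiv ℝ V0 q (1, 0) + fderiv ℝ V1 q (0, 1) with hd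
  have hdc : Continuous d := by
    have e0 : Continuous (fun q => fderiv ℝ V0 q (1, 0)) :=
      (h0.continuous_fderiv (by simp)).clm_apply continuous_const
    have e1 : Continuous (fun q => fderiv ℝ V1 q (0, 1)) :=
      (h1.continuous_fderiv (by simp)).clm_apply continuous_const
    exact e0.add e1
  have hdb : ∀ q, |d q| ≤ |C| := by
    intro q
    refine (hbd q).trans ?_
    have := rpow_neg_le_one (by linarith : 0 < β) q
    have h2 := (rpow_neg_pos β q).le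
    calc C * (1 + ‖q‖) ^ (-β) ≤ |C| * (1 + ‖q‖) ^ (-β) :=
          mul_le_mul_of_nonneg_right (le_abs_self C) h2
      _ ≤ |C| * 1 := mul_le_mul_of_nonneg_left this (abs_nonneg C)
      _ = |C| := mul_one _
  have hlim : Tendsto (fun n : ℕ => ∫ w : ℝ × ℝ, d ((1 / ((n : ℝ) + 1)) • w + y) * ker w) atTop
      (𝓝 (∫ w : ℝ × ℝ, d y * ker w)) := by
    refine tendsto_integral_of_dominated_convergence (fun w => |C| * ker w) ?_
      (ker_int.const_mul _) ?_ ?_
    · intro n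
      refine (Continuous.mul (hdc.comp ?_) ker_cont).aestronglyMeasurable
      fun_prop
    · intro n
      refine Eventually.of_forall fun w => ?_
      rw [Real.norm_eq_abs, abs_mul, abs_of_pos (ker_pos w)]
      exact mul_le_mul_of_nonneg_right (hdb _) (ker_pos w).le
    · refine Eventually.of_forall fun w => ?_
      refine Tendsto.mul_const _ ?_
      have h2 : Tendsto (fun n : ℕ => (1 / ((n : ℝ) + 1)) • w + y) atTop (𝓝 ((0 : ℝ) • w + y)) :=
        (tendsto_one_div_add_atTop_nhds_zero_nat.smul_const w).add_const y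
      rw [zero_smul, zero_add] at h2
      exact (hdc.tendsto y).comp h2
  rw [integral_const_mul] at hlim
  have hne2 : d y * ∫ w, ker w ≠ 0 := mul_ne_zero hy ker_integral_pos.ne'
  obtain ⟨n, hn⟩ := (hlim.eventually_ne hne2).exists
  have hc : (0 : ℝ) < 1 / ((n : ℝ) + 1) := by positivity
  refine ⟨y.1, y.2, 1 / ((n : ℝ) + 1), hc, ?_⟩
  have := subst_eq d y (1 / ((n : ℝ) + 1)) hc
  rw [← this] at hn
  exact hn

end Pool.Agent.Helper88.HalfEuler
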